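import Mathlib
import Pool.Agent.H84.Luz

namespace Pool.Agent.Results.MP_10f401_gt.CH

open Pool.Agent.H84.LuzDefs

theorem result (ch : Cardinal.continuum.{0} = Cardinal.aleph 1) (X : Set (ℕ → Bool))
    (h : Luzin covM X) :
    ∃ Y : Set (ℕ → Bool), (∀ k, Rothberger (Fin k → Y) ∧ Menger (Fin k → Y)) ∧ ¬ Menger (X × Y) :=
  Pool.Agent.H84.Luz.main ch X h

end Pool.Agent.Results.MP_10f401_gt.CH
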